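import Pool.Agent.W402.HI.Defs

/-!
Project HI (helper402), task HI-E5: approximable operators are compact, and `Pert` holds for them when the
resolvent of the unperturbed operator grows polynomially.
-/

set_option autoImplicit false

open Filter Topology Metric

namespace Pool.Agent.W991.HI.E5

open Pool.Agent.W402.HI

/-- operators of finite rank are compact -/
theorem compact_of_finite {X : Type} [NormedAddCommGroup X] [NormedSpace ℂ X]
    (G : X →L[ℂ] X) (h : FiniteDimensional ℂ (LinearMap.range (G : X →ₗ[ℂ] X))) :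
    IsCompactOperator G := by
  set V := LinearMap.range (G : X →ₗ[ℂ] X) with hV
  haveI : ProperSpace V := FiniteDimensional.proper ℂ V
  let G' : X →L[ℂ] V := G.codRestrict V (fun x => ⟨x, rfl⟩)
  have h1 : IsCompactOperator G' := isCompactOperator_of_locallyCompactSpace_dom G'
  have h2 := h1.clm_comp V.subtypeL
  exact h2

theorem compact_of_decay {X : Type} [NormedAddCommGroup X] [NormedSpace ℂ X] [CompleteSpace X]
    (K : X →L[ℂ] X) (hK : ApproxDecay K) : IsCompactOperator K := by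
  obtain ⟨C, ε, hε, hG⟩ := hK
  choose G hfin hrk hnorm using fun n : ℕ => hG (n + 1) (by omega)
  have hlim : Tendsto G atTop (𝓝 K) := by
    rw [tendsto_iff_norm_sub_tendsto_zero]
    have hd : Tendsto (fun n : ℕ => C / ((n + 1 : ℕ) : ℝ) ^ ε) atTop (𝓝 0) := by
      have h1 : Tendsto (fun n : ℕ => ((n + 1 : ℕ) : ℝ) ^ ε) atTop atTop :=
        (tendsto_rpow_atTop hε).comp
          (tendsto_natCast_atTop_atTop.comp (tendsto_add_atTop_nat 1))
      exact h1.const_div_atTop C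
    refine squeeze_zero (fun n => norm_nonneg _) (fun n => ?_) hd
    rw [norm_sub_rev]
    exact hnorm n
  exact isCompactOperator_of_tendsto hlim (Eventually.of_forall fun n => compact_of_finite _ (hfin n))

/-- uniform bound for the resolvent at distance `≥ δ` from `E` -/
theorem resolvent_bound {X : Type} [NormedAddCommGroup X] [NormedSpace ℂ X] [CompleteSpace X]
    (S : X →L[ℂ] X) (E : Set ℂ)
    (hS : ∀ z, z ∉ E → z ∈ resolventSet ℂ S) (C : ℝ) (k : ℕ)
    (hC : ∀ z, z ∉ E → infDist z E ≤ 1 → ‖resolvent S z‖ ≤ C / infDist z E ^ k) :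
    ∃ C2 : ℝ, 1 ≤ C2 ∧ ∀ δ : ℝ, 0 < δ → δ ≤ 1 → ∀ z : ℂ, δ ≤ infDist z E →
      ‖resolvent S z‖ ≤ C2 / δ ^ k := by
  have hev : ∀ᶠ z in Bornology.cobounded ℂ, ‖resolvent S z‖ < 1 := by
    have := (spectrum.resolvent_tendsto_cobounded (𝕜 := ℂ) S).norm
    rw [norm_zero] at this
    exact this.eventually (gt_mem_nhds one_pos)
  have hbdd : Bornology.IsBounded {z : ℂ | ¬ ‖resolvent S z‖ < 1} := by
    rw [← Bornology.isCobounded_compl_iff]
    refine Filter.mem_of_superset hev ?_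
    intro z hz
    simpa using hz
  obtain ⟨R, hR⟩ := hbdd.subset_closedBall (0 : ℂ)
  set A : Set ℂ := closedBall (0 : ℂ) R ∩ {z | 1 ≤ infDist z E} with hA
  have hAc : IsCompact A :=
    (isCompact_closedBall _ _).inter_right (isClosed_le continuous_const (continuous_infDist_pt E))
  have hcont : ContinuousOn (fun z => ‖resolvent S z‖) A := by
    intro z hz
    have hzE : z ∉ E := by
      intro h
      have h1 : (1 : ℝ) ≤ infDist z E := hz.2
      rw [infDist_zero_of_mem h] at h1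
      linarith
    exact (spectrum.hasDerivAt_resolvent_const_left (hS z hzE)).continuousAt.norm.continuousWithinAt
  obtain ⟨M, hM⟩ := hAc.bddAbove_image hcont
  refine ⟨max 1 (max |C| M), le_max_left _ _, ?_⟩
  intro δ hδ hδ1 z hz
  have hδk : (0 : ℝ) < δ ^ k := pow_pos hδ k
  have hδk1 : δ ^ k ≤ 1 := pow_le_one₀ hδ.le hδ1
  have hC2 : (1 : ℝ) ≤ max 1 (max |C| M) := le_max_left _ _
  have hge : max 1 (max |C| M) ≤ max 1 (max |C| M) / δ ^ k := by
    rw [le_div_iff₀ hδk]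
    nlinarith
  by_cases h1 : infDist z E ≤ 1
  · have hzE : z ∉ E := by
      intro h
      rw [infDist_zero_of_mem h] at hz
      linarith
    have hd : 0 < infDist z E := lt_of_lt_of_le hδ hz
    calc ‖resolvent S z‖ ≤ C / infDist z E ^ k := hC z hzE h1
      _ ≤ |C| / infDist z E ^ k := by
          gcongr
          exact le_abs_self C
      _ ≤ |C| / δ ^ k := by
          gcongr
      _ ≤ max 1 (max |C| M) / δ ^ k := by
          gcongr
          exact (le_max_left _ _).trans (le_max_right _ _)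
  · push Not at h1
    by_cases hz1 : ‖resolvent S z‖ < 1
    · linarith
    · have hzA : z ∈ A := ⟨hR hz1, h1.le⟩
      have := hM ⟨z, hzA, rfl⟩
      calc ‖resolvent S z‖ ≤ M := this
        _ ≤ max 1 (max |C| M) := (le_max_right _ _).trans (le_max_right _ _)
        _ ≤ _ := hge

theorem main : P_E5 := by
  intro X _ _ _ S K E _ _ hK
  refine ⟨compact_of_decay K hK, ?_⟩
  intro hS hgrow
  obtain ⟨C1, k, hC1⟩ := hgrow
  obtain ⟨C2, hC2, hres⟩ := resolvent_bound S E hS C1 k hC1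
  obtain ⟨C, ε, hε, hG⟩ := hK
  -- the exponent
  set p : ℕ := ⌈(k : ℝ) / ε⌉₊ + k with hp
  have hp1 : (k : ℝ) / ε ≤ (p : ℝ) := by
    have := Nat.le_ceil ((k : ℝ) / ε)
    rw [hp]; push_cast
    have hk0 : (0 : ℝ) ≤ (k : ℝ) := Nat.cast_nonneg k
    linarith
  have hp2 : k ≤ p := by omega
  set L : ℝ := 2 * (|C| + 1) * C2 with hL
  have hL0 : 0 < L := by positivity
  have hCa : 0 ≤ |C| := abs_nonneg C
  set C3 : ℝ := L ^ (1 / ε) + 2 + |C| + C2 with hC3
  have hLe : 0 ≤ L ^ (1 / ε) := Real.rpow_nonneg hL0.le _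
  have hC3pos : 0 < C3 := by positivity
  refine ⟨C3, p, ?_⟩
  intro δ hδ hδ1
  have hδk : (0 : ℝ) < δ ^ k := pow_pos hδ k
  have hδp : (0 : ℝ) < δ ^ p := pow_pos hδ p
  have hδp1 : δ ^ p ≤ 1 := pow_le_one₀ hδ.le hδ1
  have hδkp : δ ^ p ≤ δ ^ k := pow_le_pow_of_le_one hδ.le hδ1 hp2
  set Y : ℝ := (L / δ ^ k) ^ (1 / ε) with hY
  have hY0 : 0 ≤ Y := Real.rpow_nonneg (by positivity) _
  set m : ℕ := ⌈Y⌉₊ + 1 with hm
  have hmY : Y ≤ (m : ℝ) := by
    have := Nat.le_ceil Y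
    rw [hm]; push_cast; linarith
  have hmle : (m : ℝ) ≤ Y + 2 := by
    have := (Nat.ceil_lt_add_one hY0).le
    rw [hm]; push_cast; linarith
  have hm1 : 1 ≤ m := by omega
  have hmpos : (0 : ℝ) < (m : ℝ) := by exact_mod_cast hm1
  obtain ⟨G, hfin, hrk, hnorm⟩ := hG m hm1
  -- Y ≤ L^(1/ε) / δ^p
  have hYle : Y ≤ L ^ (1 / ε) / δ ^ p := by
    rw [hY, Real.div_rpow hL0.le hδk.le]
    have h1 : (δ ^ k) ^ (1 / ε) = δ ^ ((k : ℝ) / ε) := by
      rw [← Real.rpow_natCast δ k, ← Real.rpow_mul hδ.le]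
      congr 1
      ring
    rw [h1]
    have h2 : δ ^ p ≤ δ ^ ((k : ℝ) / ε) := by
      rw [← Real.rpow_natCast δ p]
      exact Real.rpow_le_rpow_of_exponent_ge hδ hδ1 hp1
    exact div_le_div_of_nonneg_left hLe hδp h2
  -- m^ε ≥ L / δ^k
  have hmε : L / δ ^ k ≤ (m : ℝ) ^ ε := by
    have h1 : Y ^ ε = L / δ ^ k := by
      rw [hY, ← Real.rpow_mul (by positivity)]
      rw [one_div_mul_cancel hε.ne', Real.rpow_one]
    rw [← h1]
    exact Real.rpow_le_rpow hY0 hmY hε.le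
  have hmεpos : 0 < (m : ℝ) ^ ε := Real.rpow_pos_of_pos hmpos ε
  have hm1ε : 1 ≤ (m : ℝ) ^ ε := Real.one_le_rpow (by exact_mod_cast hm1) hε.le
  have hnorm1 : ‖K - G‖ ≤ |C| := by
    refine hnorm.trans ?_
    rw [div_le_iff₀ hmεpos]
    have := le_abs_self C
    nlinarith
  have hnorm2 : ‖K - G‖ * (L / δ ^ k) ≤ |C| := by
    calc ‖K - G‖ * (L / δ ^ k) ≤ ‖K - G‖ * (m : ℝ) ^ ε := by gcongr
      _ ≤ (C / (m : ℝ) ^ ε) * (m : ℝ) ^ ε := by gcongr
      _ = C := by field_simp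
      _ ≤ |C| := le_abs_self C
  refine ⟨G, hfin, ?_, ?_, ?_⟩
  · have h1 : (Module.finrank ℂ (LinearMap.range (G : X →ₗ[ℂ] X)) : ℝ) ≤ (m : ℝ) := by
      exact_mod_cast hrk
    refine h1.trans (hmle.trans ?_)
    have h2 : (2 : ℝ) ≤ (2 + |C| + C2) / δ ^ p := by
      rw [le_div_iff₀ hδp]
      nlinarith
    calc Y + 2 ≤ L ^ (1 / ε) / δ ^ p + (2 + |C| + C2) / δ ^ p := add_le_add hYle h2
      _ = C3 / δ ^ p := by rw [hC3]; ring
  · refine hnorm1.trans ?_
    rw [hC3]
    linarith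
  · intro z hz
    have hzE : z ∉ E := by
      intro h
      rw [infDist_zero_of_mem h] at hz
      linarith
    have hr := hres δ hδ hδ1 z hz
    refine ⟨hS z hzE, ?_, ?_⟩
    · have h1 : ‖K - G‖ * ‖resolvent S z‖ ≤ ‖K - G‖ * (C2 / δ ^ k) := by gcongr
      have h2 : ‖K - G‖ * (L / δ ^ k) = 2 * (|C| + 1) * (‖K - G‖ * (C2 / δ ^ k)) := by
        rw [hL]; ring
      rw [h2] at hnorm2
      have h3 : 0 ≤ ‖K - G‖ * (C2 / δ ^ k) := by positivity
      have h4 : ‖K - G‖ * (C2 / δ ^ k) ≤ 1 / 2 := by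
        by_contra hcon
        push Not at hcon
        nlinarith
      linarith
    · have h1 : C2 / δ ^ k ≤ C3 / δ ^ p := by
        have : C2 ≤ C3 := by rw [hC3]; linarith
        exact div_le_div₀ hC3pos.le this hδp hδkp
      calc ‖resolvent S z‖ ≤ C2 / δ ^ k := hr
        _ ≤ C3 / δ ^ p := h1
        _ ≤ Real.exp (C3 / δ ^ p) := by
            have := Real.add_one_le_exp (C3 / δ ^ p)
            linarith

end Pool.Agent.W991.HI.E5
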