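import Pool.Agent.W402.HI.Defs2

/-!
Project HI (helper402), task HI-E5L: the local version of `Pool.Agent.W991.HI.E5`.
-/

set_option autoImplicit false

open Filter Topology Metric

namespace Pool.Agent.W991.HI.E5L

open Pool.Agent.W402.HI

theorem main : P_E5L := by
  intro X _ _ _ S K E U _ _ hK hgrow
  obtain ⟨C1, k, hC1⟩ := hgrow
  set C2 : ℝ := |C1| + 1 with hC2def
  have hC2 : 1 ≤ C2 := by
    have := abs_nonneg C1
    rw [hC2def]; linarith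
  have hres : ∀ δ : ℝ, 0 < δ → ∀ z ∈ U, δ ≤ infDist z E → z ∈ resolventSet ℂ S ∧
      ‖resolvent S z‖ ≤ C2 / δ ^ k := by
    intro δ hδ z hzU hz
    have hzE : z ∉ E := by
      intro h
      rw [infDist_zero_of_mem h] at hz
      linarith
    obtain ⟨h1, h2⟩ := hC1 z hzU hzE
    refine ⟨h1, h2.trans ?_⟩
    have hd : 0 < infDist z E := lt_of_lt_of_le hδ hz
    calc C1 / infDist z E ^ k ≤ C2 / infDist z E ^ k := by
          gcongr
          have := le_abs_self C1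
          rw [hC2def]; linarith
      _ ≤ C2 / δ ^ k := by gcongr
  obtain ⟨C, ε, hε, hG⟩ := hK
  -- the exponent
  set p : ℕ := ⌈(k : ℝ) / ε⌉₊ + k with hp
  have hp1 : (k : ℝ) / ε ≤ (p : ℝ) := by
    have := Nat.le_ceil ((k : ℝ) / ε)
    rw [hp]; push_cast
    have hk0 : (0 : ℝ) ≤ (k : ℝ) := Nat.cast_nonneg k
    linarith
  have hp2 : k ≤ p := by omega
  set L : ℝ := 2 * (|C| + 1) * C2 with hL
  have hL0 : 0 < L := by positivity
  have hCa : 0 ≤ |C| := abs_nonneg C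
  set C3 : ℝ := L ^ (1 / ε) + 2 + |C| + C2 with hC3
  have hLe : 0 ≤ L ^ (1 / ε) := Real.rpow_nonneg hL0.le _
  have hC3pos : 0 < C3 := by positivity
  refine ⟨C3, p, ?_⟩
  intro δ hδ hδ1
  have hδk : (0 : ℝ) < δ ^ k := pow_pos hδ k
  have hδp : (0 : ℝ) < δ ^ p := pow_pos hδ p
  have hδp1 : δ ^ p ≤ 1 := pow_le_one₀ hδ.le hδ1
  have hδkp : δ ^ p ≤ δ ^ k := pow_le_pow_of_le_one hδ.le hδ1 hp2
  set Y : ℝ := (L / δ ^ k) ^ (1 / ε) with hY
  have hY0 : 0 ≤ Y := Real.rpow_nonneg (by positivity) _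
  set m : ℕ := ⌈Y⌉₊ + 1 with hm
  have hmY : Y ≤ (m : ℝ) := by
    have := Nat.le_ceil Y
    rw [hm]; push_cast; linarith
  have hmle : (m : ℝ) ≤ Y + 2 := by
    have := (Nat.ceil_lt_add_one hY0).le
    rw [hm]; push_cast; linarith
  have hm1 : 1 ≤ m := by omega
  have hmpos : (0 : ℝ) < (m : ℝ) := by exact_mod_cast hm1
  obtain ⟨G, hfin, hrk, hnorm⟩ := hG m hm1
  -- Y ≤ L^(1/ε) / δ^p
  have hYle : Y ≤ L ^ (1 / ε) / δ ^ p := by
    rw [hY, Real.div_rpow hL0.le hδk.le]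
    have h1 : (δ ^ k) ^ (1 / ε) = δ ^ ((k : ℝ) / ε) := by
      rw [← Real.rpow_natCast δ k, ← Real.rpow_mul hδ.le]
      congr 1
      ring
    rw [h1]
    have h2 : δ ^ p ≤ δ ^ ((k : ℝ) / ε) := by
      rw [← Real.rpow_natCast δ p]
      exact Real.rpow_le_rpow_of_exponent_ge hδ hδ1 hp1
    exact div_le_div_of_nonneg_left hLe hδp h2
  -- m^ε ≥ L / δ^k
  have hmε : L / δ ^ k ≤ (m : ℝ) ^ ε := by
    have h1 : Y ^ ε = L / δ ^ k := by
      rw [hY, ← Real.rpow_mul (by positivity)]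
      rw [one_div_mul_cancel hε.ne', Real.rpow_one]
    rw [← h1]
    exact Real.rpow_le_rpow hY0 hmY hε.le
  have hmεpos : 0 < (m : ℝ) ^ ε := Real.rpow_pos_of_pos hmpos ε
  have hm1ε : 1 ≤ (m : ℝ) ^ ε := Real.one_le_rpow (by exact_mod_cast hm1) hε.le
  have hnorm1 : ‖K - G‖ ≤ |C| := by
    refine hnorm.trans ?_
    rw [div_le_iff₀ hmεpos]
    have := le_abs_self C
    nlinarith
  have hnorm2 : ‖K - G‖ * (L / δ ^ k) ≤ |C| := by
    calc ‖K - G‖ * (L / δ ^ k) ≤ ‖K - G‖ * (m : ℝ) ^ ε := by gcongr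
      _ ≤ (C / (m : ℝ) ^ ε) * (m : ℝ) ^ ε := by gcongr
      _ = C := by field_simp
      _ ≤ |C| := le_abs_self C
  refine ⟨G, hfin, ?_, ?_, ?_⟩
  · have h1 : (Module.finrank ℂ (LinearMap.range (G : X →ₗ[ℂ] X)) : ℝ) ≤ (m : ℝ) := by
      exact_mod_cast hrk
    refine h1.trans (hmle.trans ?_)
    have h2 : (2 : ℝ) ≤ (2 + |C| + C2) / δ ^ p := by
      rw [le_div_iff₀ hδp]
      nlinarith
    calc Y + 2 ≤ L ^ (1 / ε) / δ ^ p + (2 + |C| + C2) / δ ^ p := add_le_add hYle h2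
      _ = C3 / δ ^ p := by rw [hC3]; ring
  · refine hnorm1.trans ?_
    rw [hC3]
    linarith
  · intro z hzU hz
    obtain ⟨hrs, hr⟩ := hres δ hδ z hzU hz
    refine ⟨hrs, ?_, ?_⟩
    · have h1 : ‖K - G‖ * ‖resolvent S z‖ ≤ ‖K - G‖ * (C2 / δ ^ k) := by gcongr
      have h2 : ‖K - G‖ * (L / δ ^ k) = 2 * (|C| + 1) * (‖K - G‖ * (C2 / δ ^ k)) := by
        rw [hL]; ring
      rw [h2] at hnorm2
      have h3 : 0 ≤ ‖K - G‖ * (C2 / δ ^ k) := by positivity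
      have h4 : ‖K - G‖ * (C2 / δ ^ k) ≤ 1 / 2 := by
        by_contra hcon
        push Not at hcon
        nlinarith
      linarith
    · have h1 : C2 / δ ^ k ≤ C3 / δ ^ p := by
        have : C2 ≤ C3 := by rw [hC3]; linarith
        exact div_le_div₀ hC3pos.le this hδp hδkp
      calc ‖resolvent S z‖ ≤ C2 / δ ^ k := hr
        _ ≤ C3 / δ ^ p := h1
        _ ≤ Real.exp (C3 / δ ^ p) := by
            have := Real.add_one_le_exp (C3 / δ ^ p)
            linarith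

end Pool.Agent.W991.HI.E5L
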